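import Mathlib
import Pool.Agent.Y56.BK.St

/-!
# The Betti numbers of Bloch-Kato Lie algebras

Over a field `K` which is infinite (or has at least `b₁(L)` elements) the Poincaré polynomial
of a Bloch-Kato Lie algebra `L` of cohomological dimension `n` has the form
`(1 + t)^n + ∑_{j < n} c_j t (1 + t)^j` with natural numbers `c_j`.
-/

set_option autoImplicit false

namespace Pool.Agent.Results.MP_7e1e73_al.ExactBetti

open H89R3.BK

/-- Let `L` be a Bloch-Kato Lie algebra of finite cohomological dimension `n`.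

(A) The inequality of Q1 over every field: `0 ≤ (n - 1) b₁² - 2 n b₂`.

(B) If `K` is infinite, or finite with at least `b₁` elements, then there are natural numbers
`c₀, …, c_{n-1}` such that for all `k ≥ 1`
`b_k = C(n, k) + ∑_{j < n} c_j C(j, k - 1)`,
i.e. the Poincaré polynomial of `L` is `(1 + t)^n + ∑_{j < n} c_j t (1 + t)^j`. Consequently
`n ≤ b₁`, `C(n, k) ≤ b_k ≤ C(n, k) + (b₁ - n) C(n - 1, k - 1)` for `k ≥ 1`,
`(n - 1) (b₁ - n)² ≤ (n - 1) b₁² - 2 n b₂`, and for `n ≥ 1` the Euler characteristic is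
`1 - b₁ + b₂ - ⋯ = -c₀ ≤ 0`. -/
theorem result (K : Type) [Field K] (L : Type) [LieRing L] [LieAlgebra K L]
    (ℳ : ℕ → Submodule K L) (h : IsBlochKato K ℳ) (n : ℕ) (hn : HasCd K L n) :
    (∀ k, FiniteDimensional K (Coh K L (k + 1))) ∧
    0 ≤ ((n : ℤ) - 1) * (betti K L 1 : ℤ) ^ 2 - 2 * (n : ℤ) * (betti K L 2 : ℤ) ∧
    ((Infinite K ∨ betti K L 1 ≤ Nat.card K) →
      ∃ c : ℕ → ℕ,
        (∀ k, 1 ≤ k → betti K L k =
          n.choose k + ∑ j ∈ Finset.range n, c j * j.choose (k - 1)) ∧
        n ≤ betti K L 1 ∧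
        (∀ k, 1 ≤ k → n.choose k ≤ betti K L k ∧
          betti K L k ≤ n.choose k + (betti K L 1 - n) * (n - 1).choose (k - 1)) ∧
        ((n : ℤ) - 1) * ((betti K L 1 : ℤ) - n) ^ 2 ≤
          ((n : ℤ) - 1) * (betti K L 1 : ℤ) ^ 2 - 2 * (n : ℤ) * (betti K L 2 : ℤ) ∧
        (1 ≤ n → 1 + ∑ k ∈ Finset.range n, (-1 : ℤ) ^ (k + 1) * (betti K L (k + 1) : ℤ) =
          -(c 0 : ℤ))) := by
  refine ⟨fun k => coh_finite h k, inequality h n hn, ?_⟩
  intro hcard
  have hK : ∀ s : Finset K, s.card + 1 ≤ betti K L 1 → ∃ t, t ∉ s := by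
    intro s hs
    rcases hcard with hinf | hfin
    · exact Infinite.exists_notMem_finset s
    · by_contra hcon
      push Not at hcon
      have hf : Finite K := Nat.finite_of_card_ne_zero (by omega)
      have := Fintype.ofFinite K
      have h1 : s = Finset.univ := Finset.eq_univ_of_forall hcon
      rw [Nat.card_eq_fintype_card, ← Finset.card_univ, ← h1] at hfin
      omega
  obtain ⟨c, hc⟩ := Pool.Agent.Y56.BK.betti_main h n hn hK
  have hb1 : betti K L 1 = n + ∑ j ∈ Finset.range n, c j := by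
    rw [hc 0, Nat.choose_one_right]
    simp
  have hbk : ∀ k, 1 ≤ k → betti K L k =
      n.choose k + ∑ j ∈ Finset.range n, c j * j.choose (k - 1) := by
    intro k hk
    obtain ⟨k, rfl⟩ : ∃ m, k = m + 1 := ⟨k - 1, by omega⟩
    exact hc k
  have hup : ∀ k, ∑ j ∈ Finset.range n, c j * j.choose k ≤
      (∑ j ∈ Finset.range n, c j) * (n - 1).choose k := by
    intro k
    rw [Finset.sum_mul]
    refine Finset.sum_le_sum fun j hj => Nat.mul_le_mul_left _ ?_
    rw [Finset.mem_range] at hj
    exact Nat.choose_le_choose _ (by omega)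
  refine ⟨c, hbk, by omega, ?_, ?_, ?_⟩
  · intro k hk
    rw [hbk k hk]
    refine ⟨Nat.le_add_right _ _, ?_⟩
    have h1 : betti K L 1 - n = ∑ j ∈ Finset.range n, c j := by omega
    rw [h1]
    exact Nat.add_le_add_left (hup (k - 1)) _
  · rcases Nat.eq_zero_or_pos n with h0 | hpos
    · subst h0
      have h1 : betti K L 1 = 0 := by rw [hb1]; simp
      rw [h1]
      simp
    · have h2 := hup 1
      rw [Nat.choose_one_right] at h2
      have h3 : betti K L 2 = n.choose 2 + ∑ j ∈ Finset.range n, c j * j.choose 1 := hc 1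
      set s := ∑ j ∈ Finset.range n, c j
      set q := ∑ j ∈ Finset.range n, c j * j.choose 1
      have h4 : 2 * (n.choose 2 : ℤ) = (n : ℤ) * ((n : ℤ) - 1) := by
        have h5 := Nat.choose_two_right n
        have h6 : n.choose 2 * 2 = n * (n - 1) := by
          rw [h5]
          exact Nat.div_mul_cancel (Nat.even_mul_pred_self n).two_dvd
        have h7 : ((n.choose 2 * 2 : ℕ) : ℤ) = ((n * (n - 1) : ℕ) : ℤ) := by rw [h6]
        push_cast [Nat.cast_sub hpos] at h7
        linarith
      have h8 : (q : ℤ) ≤ s * ((n : ℤ) - 1) := by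
        have : (q : ℤ) ≤ ((s * (n - 1) : ℕ) : ℤ) := by exact_mod_cast h2
        push_cast [Nat.cast_sub hpos] at this
        exact this
      have h9 : (betti K L 1 : ℤ) = n + s := by rw [hb1]; push_cast; rfl
      have h10 : (betti K L 2 : ℤ) = n.choose 2 + q := by rw [h3]; push_cast; rfl
      rw [h9, h10]
      have h11 : 2 * (n : ℤ) * ((n.choose 2 : ℤ) + q) ≤
          n * (n * ((n : ℤ) - 1)) + 2 * n * (s * ((n : ℤ) - 1)) := by
        have hn0 : (0 : ℤ) ≤ n := Int.natCast_nonneg n
        nlinarith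
      nlinarith
  · intro hpos
    have h1 : ∀ j, j < n → ∑ k ∈ Finset.range n, (-1 : ℤ) ^ k * (j.choose k : ℤ) =
        if j = 0 then 1 else 0 := by
      intro j hj
      rw [← Int.alternating_sum_range_choose (n := j)]
      symm
      apply Finset.sum_subset
      · intro k hk
        rw [Finset.mem_range] at hk ⊢
        omega
      · intro k _ hk
        rw [Finset.mem_range] at hk
        rw [Nat.choose_eq_zero_of_lt (by omega)]
        simp
    have h2 : ∑ k ∈ Finset.range n, (-1 : ℤ) ^ (k + 1) * (n.choose (k + 1) : ℤ) = -1 := by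
      have h3 := Int.alternating_sum_range_choose (n := n)
      rw [Finset.sum_range_succ', if_neg (by omega)] at h3
      simp only [pow_zero, Nat.choose_zero_right, Nat.cast_one, mul_one] at h3
      linarith
    have h3 : ∑ k ∈ Finset.range n, (-1 : ℤ) ^ (k + 1) *
        ((∑ j ∈ Finset.range n, c j * j.choose k : ℕ) : ℤ) = -(c 0 : ℤ) := by
      have h4 : ∀ k ∈ Finset.range n, (-1 : ℤ) ^ (k + 1) *
          ((∑ j ∈ Finset.range n, c j * j.choose k : ℕ) : ℤ) =
          ∑ j ∈ Finset.range n, (-(c j : ℤ)) * ((-1 : ℤ) ^ k * (j.choose k : ℤ)) := by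
        intro k _
        push_cast
        rw [Finset.mul_sum]
        refine Finset.sum_congr rfl fun j _ => ?_
        ring
      rw [Finset.sum_congr rfl h4, Finset.sum_comm]
      have h5 : ∀ j ∈ Finset.range n,
          ∑ k ∈ Finset.range n, (-(c j : ℤ)) * ((-1 : ℤ) ^ k * (j.choose k : ℤ)) =
          if j = 0 then -(c 0 : ℤ) else 0 := by
        intro j hj
        rw [← Finset.mul_sum, h1 j (Finset.mem_range.mp hj)]
        split_ifs with hj0
        · rw [hj0, mul_one]
        · rw [mul_zero]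
      rw [Finset.sum_congr rfl h5, Finset.sum_ite_eq' (Finset.range n) 0]
      rw [if_pos (Finset.mem_range.mpr hpos)]
    have h6 : ∀ k ∈ Finset.range n, (-1 : ℤ) ^ (k + 1) * (betti K L (k + 1) : ℤ) =
        (-1 : ℤ) ^ (k + 1) * (n.choose (k + 1) : ℤ) + (-1 : ℤ) ^ (k + 1) *
          ((∑ j ∈ Finset.range n, c j * j.choose k : ℕ) : ℤ) := by
      intro k _
      rw [hc k, Nat.cast_add, mul_add]
    rw [Finset.sum_congr rfl h6, Finset.sum_add_distrib, h2, h3]
    ring

end Pool.Agent.Results.MP_7e1e73_al.ExactBetti
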