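import Mathlib
import Pool.Agent.Y712.BK.Chain

/-!
# The structure of Bloch-Kato Lie algebras: chains of standard subalgebras

Let `L` be a Bloch-Kato Lie algebra of cohomological dimension `n ≥ 1` over a field `K` that is
infinite, or has at least `b₁(L)` elements, or has more than `b_m(L) + 1` elements for all `m ≥ 2`.
Write `⟨W⟩` for the subalgebra generated by a subspace `W`. There are subspaces
`C 1 ≤ C 2 ≤ ⋯ ≤ C n = L₁` and elements `v 1, …, v (n-1)` with `C (i+1) = C i ⊕ K v i` such that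

* `⟨C i⟩` is Bloch-Kato of cohomological dimension `i`; in particular `⟨C (n-1)⟩` is a maximal proper
  standard subalgebra of `L` of cohomological dimension `n - 1`;
* `⟨C 1⟩` is free;
* for `i < n` and `N i = {w ∈ C i | ⁅v i, w⁆ ∈ span ⁅C i, C i⁆}` the subalgebra `⟨N i⟩` is Bloch-Kato
  of cohomological dimension `i`, and `⟨C (i+1)⟩` is the HNN extension of `⟨C i⟩` with base `⟨N i⟩`;
* if `K` is infinite or has at least `b₁(L)` elements, `⟨C i⟩` is the free product of `⟨N i⟩` and a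
  free Lie algebra.

For `n ≥ 2` equality `(n-1) b₁² = 2 n b₂` holds in Q1 if and only if `L` is abelian.
-/

set_option autoImplicit false

open H89R3.BK Pool.Agent.Y712.BK in
theorem Pool.Agent.Results.MP_7e1e73_al.StandardChains.result
    (K : Type) [Field K] (L : Type) [LieRing L] [LieAlgebra K L] (ℳ : ℕ → Submodule K L)
    (h : IsBlochKato K ℳ) (n : ℕ) (hn : HasCd K L n) (hn1 : 1 ≤ n)
    (hK : Infinite K ∨ betti K L 1 ≤ Nat.card K ∨ ∀ m, 2 ≤ m → betti K L m + 1 < Nat.card K) :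
    (∃ (C : ℕ → Submodule K L) (v : ℕ → L), C n = ℳ 1 ∧
      (∀ i, 1 ≤ i → i ≤ n → C i ≤ ℳ 1 ∧
        Module.finrank K (C i) + (n - i) = Module.finrank K (ℳ 1) ∧
        IsBlochKato K (subGr (LieSubalgebra.lieSpan K L (C i : Set L)) ℳ) ∧
        HasCd K (LieSubalgebra.lieSpan K L (C i : Set L)) i) ∧
      FreeOver ⊥ (C 1) ∧
      ∀ i, 1 ≤ i → i < n → v i ∉ C i ∧ C (i + 1) = C i ⊔ K ∙ v i ∧
        IsBlochKato K (subGr (LieSubalgebra.lieSpan K L (NN (C i) (v i) : Set L)) ℳ) ∧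
        HasCd K (LieSubalgebra.lieSpan K L (NN (C i) (v i) : Set L)) i ∧
        HNNOver (C i) (v i) ∧
        ((Infinite K ∨ betti K L 1 ≤ Nat.card K) → FreeOver (NN (C i) (v i)) (C i))) ∧
    (2 ≤ n → (((n : ℤ) - 1) * (betti K L 1 : ℤ) ^ 2 - 2 * (n : ℤ) * (betti K L 2 : ℤ) = 0 ↔
      ∀ a b : L, ⁅a, b⁆ = 0)) := by
  refine ⟨exists_chain' h hK n hn hn1, ?_⟩
  intro hn2
  obtain ⟨n, rfl⟩ : ∃ k, n = k + 2 := ⟨n - 2, by omega⟩
  exact omega_eq_zero_iff h (big_of_card h hK) n hn
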