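import Mathlib
import Pool.Agent.Y712.BK.Main

/-!
# The Betti numbers of Bloch-Kato Lie algebras: the bounds of Turán and Zykov in all degrees

For every Bloch-Kato Lie algebra `L` of finite cohomological dimension `n`, over any field, and
every `k ≥ 1`, the Betti number `b_k(L)` is at most the number of cliques with `k` vertices in the
Turán graph with `b₁(L)` vertices and `n` classes; in particular
`n^k b_k(L) ≤ (n choose k) b₁(L)^k`, and the case `k = 2` contains
`0 ≤ (n - 1) * b₁(L)^2 - 2 * n * b₂(L)`.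
-/

set_option autoImplicit false

open H89R3.BK in
theorem Pool.Agent.Results.MP_7e1e73_al.TuranZykov.result
    (K : Type) [Field K] (L : Type) [LieRing L] [LieAlgebra K L] (ℳ : ℕ → Submodule K L)
    (h : IsBlochKato K ℳ) (n : ℕ) (hn : HasCd K L n) :
    (∀ k : ℕ, 1 ≤ k → FiniteDimensional K (Coh K L k) ∧
      betti K L k ≤ Pool.Agent.Y712.BK.turan (betti K L 1) n k ∧
      n ^ k * betti K L k ≤ n.choose k * betti K L 1 ^ k) ∧
    0 ≤ ((n : ℤ) - 1) * (betti K L 1 : ℤ) ^ 2 - 2 * (n : ℤ) * (betti K L 2 : ℤ) := by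
  refine ⟨?_, inequality h n hn⟩
  rintro (_ | k) hk
  · omega
  · exact ⟨coh_finite h k, Pool.Agent.Y712.BK.betti_le_turan h n hn k,
      Pool.Agent.Y712.BK.betti_le_choose h n hn k⟩
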